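import Pool.Agent.Y202.U.Stm

/-!
The image of a set of dual walks under an earlier move.
-/

set_option autoImplicit false

namespace Pool.Agent.Y290.U

open Finset Pool.Agent.W788.NV Pool.Agent.W788.NW Pool.Agent.Y202.U

variable {V : Type} [Fintype V] [DecidableEq V]

/-- all the walks from `S` are alive -/
def alive (S : Finset V) (σ : V → Option V) : Prop := ∀ a ∈ S, ∃ v, σ a = some v

/-- the set of the positions -/
noncomputable def img (S : Finset V) (σ : V → Option V) : Finset V := by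
  classical
  exact univ.filter (fun z => ∃ a ∈ S, σ a = some z)

lemma mem_img {S : Finset V} {σ : V → Option V} {z : V} :
    z ∈ img S σ ↔ ∃ a ∈ S, σ a = some z := by
  classical
  unfold img
  simp

lemma Im_iff (S S0 : Finset V) (σ : V → Option V) : Im S S0 σ ↔ alive S σ ∧ img S σ = S0 := by
  constructor
  · rintro ⟨h1, h2⟩
    refine ⟨fun a ha => ?_, ?_⟩
    · obtain ⟨v, _, hv⟩ := h1 a ha
      exact ⟨v, hv⟩
    · ext z
      rw [mem_img]
      constructor
      · rintro ⟨a, ha, haz⟩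
        obtain ⟨v, hv, hav⟩ := h1 a ha
        rw [haz] at hav
        rw [Option.some.inj hav]
        exact hv
      · exact fun hz => h2 z hz
  · rintro ⟨h1, h2⟩
    subst h2
    refine ⟨fun a ha => ?_, fun v hv => mem_img.1 hv⟩
    obtain ⟨v, hv⟩ := h1 a ha
    exact ⟨v, mem_img.2 ⟨a, ha, hv⟩, hv⟩

variable {q : ℕ}

lemma fe_inl (v u : V) (c : Fin q) :
    fe (Sum.inl (v, c) : (V × Fin q) ⊕ (V × V)) u = if u = v then none else some u := rfl

lemma fe_inr (v w u : V) :
    fe (Sum.inr (v, w) : (V × Fin q) ⊕ (V × V)) u = if u = v then some w else some u := rfl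

lemma opR_inl (v z : V) (c : Fin q) (σ : V → Option V) (a : V) :
    opR (Sum.inl (v, c) : (V × Fin q) ⊕ (V × V)) σ a = some z ↔ σ a = some z ∧ z ≠ v := by
  unfold opR
  cases h : σ a with
  | none => simp
  | some u =>
    rw [Option.bind_some, fe_inl]
    by_cases hu : u = v
    · rw [if_pos hu]
      constructor
      · intro h; cases h
      · rintro ⟨h1, h2⟩
        exact absurd (Option.some.inj h1 ▸ hu) h2
    · rw [if_neg hu]
      constructor
      · intro h
        exact ⟨h, fun hz => hu ((Option.some.inj h).trans hz)⟩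
      · exact fun h => h.1

lemma opR_inr (v w z : V) (hvw : v ≠ w) (σ : V → Option V) (a : V) :
    opR (Sum.inr (v, w) : (V × Fin q) ⊕ (V × V)) σ a = some z ↔
      (z = w ∧ σ a = some v) ∨ (z ≠ v ∧ σ a = some z) := by
  unfold opR
  cases h : σ a with
  | none => simp
  | some u =>
    rw [Option.bind_some, fe_inr]
    by_cases hu : u = v
    · rw [if_pos hu, hu]
      constructor
      · intro h
        exact Or.inl ⟨(Option.some.inj h).symm, rfl⟩
      · rintro (⟨h1, _⟩ | ⟨h1, h2⟩)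
        · rw [h1]
        · exact absurd (Option.some.inj h2).symm h1
    · rw [if_neg hu]
      constructor
      · intro h
        refine Or.inr ⟨?_, h⟩
        rw [← Option.some.inj h]
        exact hu
      · rintro (⟨_, h2⟩ | ⟨_, h2⟩)
        · exact absurd (Option.some.inj h2) hu
        · exact h2

lemma im_inl (S S0 : Finset V) (v : V) (c : Fin q) (σ : V → Option V) :
    Im S S0 (opR (Sum.inl (v, c) : (V × Fin q) ⊕ (V × V)) σ) ↔ v ∉ S0 ∧ Im S S0 σ := by
  unfold Im
  simp only [opR_inl]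
  constructor
  · rintro ⟨h1, h2⟩
    have hv : v ∉ S0 := by
      intro hv
      obtain ⟨a, _, _, h⟩ := h2 v hv
      exact h rfl
    refine ⟨hv, fun a ha => ?_, fun z hz => ?_⟩
    · obtain ⟨z, hz, hz2, _⟩ := h1 a ha
      exact ⟨z, hz, hz2⟩
    · obtain ⟨a, ha, haz, _⟩ := h2 z hz
      exact ⟨a, ha, haz⟩
  · rintro ⟨hv, h1, h2⟩
    refine ⟨fun a ha => ?_, fun z hz => ?_⟩
    · obtain ⟨z, hz, hz2⟩ := h1 a ha
      exact ⟨z, hz, hz2, fun h => hv (h ▸ hz)⟩
    · obtain ⟨a, ha, haz⟩ := h2 z hz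
      exact ⟨a, ha, haz, fun h => hv (h ▸ hz)⟩

lemma alive_inr (S : Finset V) (v w : V) (hvw : v ≠ w) (σ : V → Option V) :
    alive S (opR (Sum.inr (v, w) : (V × Fin q) ⊕ (V × V)) σ) ↔ alive S σ := by
  unfold alive
  constructor
  · intro h a ha
    obtain ⟨z, hz⟩ := h a ha
    rw [opR_inr v w z hvw] at hz
    rcases hz with ⟨_, h⟩ | ⟨_, h⟩
    · exact ⟨v, h⟩
    · exact ⟨z, h⟩
  · intro h a ha
    obtain ⟨z, hz⟩ := h a ha
    by_cases hzv : z = v
    · exact ⟨w, (opR_inr v w w hvw σ a).2 (Or.inl ⟨rfl, hzv ▸ hz⟩)⟩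
    · exact ⟨z, (opR_inr v w z hvw σ a).2 (Or.inr ⟨hzv, hz⟩)⟩

lemma img_inr (S : Finset V) (v w : V) (hvw : v ≠ w) (σ : V → Option V) (z : V) :
    z ∈ img S (opR (Sum.inr (v, w) : (V × Fin q) ⊕ (V × V)) σ) ↔
      (z = w ∧ v ∈ img S σ) ∨ (z ≠ v ∧ z ∈ img S σ) := by
  simp only [mem_img, opR_inr v w z hvw]
  constructor
  · rintro ⟨a, ha, (⟨h1, h2⟩ | ⟨h1, h2⟩)⟩
    · exact Or.inl ⟨h1, a, ha, h2⟩
    · exact Or.inr ⟨h1, a, ha, h2⟩
  · rintro (⟨h1, a, ha, h2⟩ | ⟨h1, a, ha, h2⟩)
    · exact ⟨a, ha, Or.inl ⟨h1, h2⟩⟩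
    · exact ⟨a, ha, Or.inr ⟨h1, h2⟩⟩

/-- the case `v ∈ S0` -/
lemma im_inr_mem (S S0 : Finset V) (v w : V) (hvw : v ≠ w) (hv : v ∈ S0) (σ : V → Option V) :
    ¬ Im S S0 (opR (Sum.inr (v, w) : (V × Fin q) ⊕ (V × V)) σ) := by
  rw [Im_iff]
  rintro ⟨_, h⟩
  rw [← h, img_inr S v w hvw] at hv
  rcases hv with ⟨h1, _⟩ | ⟨h1, _⟩
  · exact hvw h1
  · exact h1 rfl

/-- the case `v, w ∉ S0` -/
lemma im_inr_out (S S0 : Finset V) (v w : V) (hvw : v ≠ w) (hv : v ∉ S0) (hw : w ∉ S0)
    (σ : V → Option V) :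
    Im S S0 (opR (Sum.inr (v, w) : (V × Fin q) ⊕ (V × V)) σ) ↔ Im S S0 σ := by
  rw [Im_iff, Im_iff, alive_inr S v w hvw]
  apply and_congr_right
  intro _
  constructor
  · intro h
    have hvi : v ∉ img S σ := by
      intro hvi
      apply hw
      rw [← h, img_inr S v w hvw]
      exact Or.inl ⟨rfl, hvi⟩
    rw [← h]
    ext z
    rw [img_inr S v w hvw]
    constructor
    · intro hz
      exact Or.inr ⟨fun e => hvi (e ▸ hz), hz⟩
    · rintro (⟨_, h2⟩ | ⟨_, h2⟩)
      · exact absurd h2 hvi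
      · exact h2
  · intro h
    rw [← h] at hv
    ext z
    rw [img_inr S v w hvw, ← h]
    constructor
    · rintro (⟨_, h2⟩ | ⟨_, h2⟩)
      · exact absurd h2 hv
      · exact h2
    · intro hz
      exact Or.inr ⟨fun e => hv (e ▸ hz), hz⟩

/-- the case `v ∉ S0`, `w ∈ S0` -/
lemma im_inr_in (S S0 : Finset V) (v w : V) (hvw : v ≠ w) (hv : v ∉ S0) (hw : w ∈ S0)
    (σ : V → Option V) :
    Im S S0 (opR (Sum.inr (v, w) : (V × Fin q) ⊕ (V × V)) σ) ↔
      Im S S0 σ ∨ Im S (insert v S0) σ ∨ Im S (insert v (S0.erase w)) σ := by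
  rw [Im_iff, Im_iff, Im_iff, Im_iff, alive_inr S v w hvw, ← and_or_left, ← and_or_left]
  apply and_congr_right
  intro _
  constructor
  · intro h
    have hz : ∀ z, z ∈ S0 ↔ (z = w ∧ v ∈ img S σ) ∨ (z ≠ v ∧ z ∈ img S σ) := by
      intro z
      rw [← h, img_inr S v w hvw]
    by_cases hvi : v ∈ img S σ
    · right
      by_cases hwi : w ∈ img S σ
      · left
        ext z
        rw [mem_insert, hz]
        by_cases hzv : z = v
        · simp [hzv, hvi]
        · by_cases hzw : z = w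
          · simp [hzw, hwi, hvi]
          · simp [hzv, hzw]
      · right
        ext z
        rw [mem_insert, mem_erase, hz]
        by_cases hzv : z = v
        · simp [hzv, hvi]
        · by_cases hzw : z = w
          · simp [hzw, hwi, hvw.symm]
          · simp [hzv, hzw]
    · left
      ext z
      rw [hz]
      constructor
      · intro h1
        exact Or.inr ⟨fun e => hvi (e ▸ h1), h1⟩
      · rintro (⟨_, h2⟩ | ⟨_, h2⟩)
        · exact absurd h2 hvi
        · exact h2
  · intro h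
    ext z
    rw [img_inr S v w hvw]
    rcases h with h | h | h
    · rw [h]
      constructor
      · rintro (⟨_, h2⟩ | ⟨_, h2⟩)
        · exact absurd h2 hv
        · exact h2
      · intro h1
        exact Or.inr ⟨fun e => hv (e ▸ h1), h1⟩
    · rw [h]
      by_cases hzv : z = v
      · subst hzv
        simp [hv, hvw]
      · by_cases hzw : z = w
        · subst hzw
          simp [hw]
        · simp [hzv, hzw]
    · rw [h]
      by_cases hzv : z = v
      · subst hzv
        simp [hv, hvw]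
      · by_cases hzw : z = w
        · subst hzw
          simp [hw]
        · simp [hzv, hzw]

lemma Im_unique {S T T' : Finset V} {σ : V → Option V} (h : Im S T σ) (h' : Im S T' σ) :
    T = T' := by
  rw [Im_iff] at h h'
  rw [← h.2, ← h'.2]

open Classical in
/-- indicator -/
noncomputable def ii (S S0 : Finset V) (σ : V → Option V) : ℝ := if Im S S0 σ then 1 else 0

lemma ii_in (S S0 : Finset V) (v w : V) (hvw : v ≠ w) (hv : v ∉ S0) (hw : w ∈ S0)
    (σ : V → Option V) :
    ii S S0 (opR (Sum.inr (v, w) : (V × Fin q) ⊕ (V × V)) σ) =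
      ii S S0 σ + ii S (insert v S0) σ + ii S (insert v (S0.erase w)) σ := by
  have h := im_inr_in (q := q) S S0 v w hvw hv hw σ
  have n1 : S0 ≠ insert v S0 := fun e => hv (by rw [e]; exact mem_insert_self _ _)
  have n2 : S0 ≠ insert v (S0.erase w) := fun e => hv (by rw [e]; exact mem_insert_self _ _)
  have n3 : insert v S0 ≠ insert v (S0.erase w) := by
    intro e
    have h1 : w ∈ insert v S0 := mem_insert_of_mem hw
    rw [e, mem_insert, mem_erase] at h1
    rcases h1 with h1 | h1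
    · exact hvw h1.symm
    · exact h1.1 rfl
  unfold ii
  by_cases h1 : Im S S0 σ
  · have h2 : ¬ Im S (insert v S0) σ := fun h2 => n1 (Im_unique h1 h2)
    have h3 : ¬ Im S (insert v (S0.erase w)) σ := fun h3 => n2 (Im_unique h1 h3)
    rw [if_pos (h.2 (Or.inl h1)), if_pos h1, if_neg h2, if_neg h3]
    norm_num
  · by_cases h2 : Im S (insert v S0) σ
    · have h3 : ¬ Im S (insert v (S0.erase w)) σ := fun h3 => n3 (Im_unique h2 h3)
      rw [if_pos (h.2 (Or.inr (Or.inl h2))), if_neg h1, if_pos h2, if_neg h3]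
      norm_num
    · by_cases h3 : Im S (insert v (S0.erase w)) σ
      · rw [if_pos (h.2 (Or.inr (Or.inr h3))), if_neg h1, if_neg h2, if_pos h3]
        norm_num
      · rw [if_neg (fun h4 => by
          rcases h.1 h4 with h5 | h5 | h5
          · exact h1 h5
          · exact h2 h5
          · exact h3 h5), if_neg h1, if_neg h2, if_neg h3]
        norm_num

lemma mrate_self (G : SimpleGraph V) (θ : ℝ) (v : V) :
    mrate G q θ (Sum.inr (v, v)) = 0 := by
  classical
  unfold mrate
  simp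

/-- the generator on the indicators -/
theorem gf_ii (G : SimpleGraph V) (θ : ℝ) (Δ : ℕ) (h : SA G q θ Δ) (S S0 : Finset V)
    (σ : V → Option V) :
    gf (mrate G q θ) (opR (V := V) (q := q)) (ii S S0) σ = -(S0.card : ℝ) * ii S S0 σ +
      ∑ a ∈ S0, ∑ v ∈ S0ᶜ, mrate G q θ (Sum.inr (v, a)) *
        (ii S (insert v (S0.erase a)) σ + ii S (insert v S0) σ) := by
  classical
  obtain ⟨_, htot⟩ := p_tot V G q θ (by have := h.q2; omega) h.t0.le h.t1 h.d1
  have h1 := htot (fun v => if v ∈ S0 then 1 else 0)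
  have h2 : ∑ v : V, (if v ∈ S0 then (1 : ℝ) else 0) = S0.card := by
    rw [Finset.sum_ite_mem, Finset.univ_inter, Finset.sum_const, nsmul_eq_mul, mul_one]
  rw [h2] at h1
  let X : (V × Fin q) ⊕ (V × V) → ℝ
    | .inl _ => 0
    | .inr p => if p.1 ∉ S0 ∧ p.2 ∈ S0 then
        ii S (insert p.1 (S0.erase p.2)) σ + ii S (insert p.1 S0) σ else 0
  have h3 : ∀ e, mrate G q θ e * (ii S S0 (opR e σ) - ii S S0 σ) =
      -(mrate G q θ e * (if site e ∈ S0 then 1 else 0)) * ii S S0 σ + mrate G q θ e * X e := by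
    intro e
    rcases e with ⟨v, c⟩ | ⟨v, w⟩
    · have e1 : ii S S0 (opR (Sum.inl (v, c) : (V × Fin q) ⊕ (V × V)) σ) =
          (if v ∈ S0 then 0 else ii S S0 σ) := by
        unfold ii
        by_cases hv : v ∈ S0
        · rw [if_neg (fun h => ((im_inl S S0 v c σ).1 h).1 hv), if_pos hv]
        · rw [if_neg hv]
          by_cases hI : Im S S0 σ
          · rw [if_pos hI, if_pos ((im_inl S S0 v c σ).2 ⟨hv, hI⟩)]
          · rw [if_neg hI, if_neg (fun h => hI ((im_inl S S0 v c σ).1 h).2)]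
      rw [e1]
      show _ = -(_ * (if v ∈ S0 then 1 else 0)) * _ + _ * 0
      by_cases hv : v ∈ S0
      · rw [if_pos hv, if_pos hv]; ring
      · rw [if_neg hv, if_neg hv]; ring
    · by_cases hvw : v = w
      · subst hvw
        rw [mrate_self]
        ring
      · show _ = -(_ * (if v ∈ S0 then 1 else 0)) * _ + _ * (if v ∉ S0 ∧ w ∈ S0 then
          ii S (insert v (S0.erase w)) σ + ii S (insert v S0) σ else 0)
        by_cases hv : v ∈ S0
        · have e1 : ii S S0 (opR (Sum.inr (v, w) : (V × Fin q) ⊕ (V × V)) σ) = 0 := by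
            unfold ii
            rw [if_neg (im_inr_mem S S0 v w hvw hv σ)]
          rw [e1, if_pos hv, if_neg (fun h => h.1 hv)]
          ring
        · by_cases hw : w ∈ S0
          · rw [ii_in S S0 v w hvw hv hw, if_neg hv, if_pos ⟨hv, hw⟩]
            ring
          · have e1 : ii S S0 (opR (Sum.inr (v, w) : (V × Fin q) ⊕ (V × V)) σ) = ii S S0 σ := by
              unfold ii
              by_cases hI : Im S S0 σ
              · rw [if_pos hI, if_pos ((im_inr_out S S0 v w hvw hv hw σ).2 hI)]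
              · rw [if_neg hI, if_neg (fun h => hI ((im_inr_out S S0 v w hvw hv hw σ).1 h))]
            rw [e1, if_neg hv, if_neg (fun h => hw h.2)]
            ring
  unfold gf
  simp_rw [h3]
  rw [Finset.sum_add_distrib, ← Finset.sum_mul, Finset.sum_neg_distrib, h1]
  congr 1
  rw [Fintype.sum_sum_type]
  have h4 : ∑ a : V × Fin q, mrate G q θ (Sum.inl a) * X (Sum.inl a) = 0 := by
    apply Finset.sum_eq_zero
    intro a _
    show _ * 0 = (0 : ℝ)
    ring
  rw [h4, zero_add, Fintype.sum_prod_type]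
  show ∑ v : V, ∑ w : V, mrate G q θ (Sum.inr (v, w)) * (if v ∉ S0 ∧ w ∈ S0 then
    ii S (insert v (S0.erase w)) σ + ii S (insert v S0) σ else 0) = _
  rw [Finset.sum_comm]
  rw [← Finset.sum_subset (Finset.subset_univ S0) (fun w _ hw => by
    apply Finset.sum_eq_zero
    intro v _
    rw [if_neg (fun h => hw h.2), mul_zero])]
  apply Finset.sum_congr rfl
  intro w hw
  rw [← Finset.sum_subset (Finset.subset_univ S0ᶜ) (fun v _ hv => by
    rw [if_neg (fun h => hv (by rw [Finset.mem_compl]; exact h.1)), mul_zero])]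
  apply Finset.sum_congr rfl
  intro v hv
  rw [Finset.mem_compl] at hv
  rw [if_pos ⟨hv, hw⟩]

end Pool.Agent.Y290.U
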