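import Pool.Agent.Y290.U.Pos
import Pool.Agent.Y290.U.Comb

/-!
Majorisation of the mixed differences of the voter semigroup by coalescing dual walks.
-/

set_option autoImplicit false

namespace Pool.Agent.Y290.U

open Finset Pool.Agent.W788.NV Pool.Agent.W788.NW Pool.Agent.Y202.U

section sgl

variable {S ι : Type} [Fintype S] [DecidableEq S] [Fintype ι]

/-- the semigroup as a linear map -/
noncomputable def sgl (r : ι → ℝ) (m : ι → S → S) (t : ℝ) (x : S) : (S → ℝ) →ₗ[ℝ] ℝ :=
  (LinearMap.proj x).comp (Matrix.mulVecLin (NormedSpace.exp (t • mgen r m)))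

lemma sgl_apply (r : ι → ℝ) (m : ι → S → S) (t : ℝ) (x : S) (F : S → ℝ) :
    sgl r m t x F = sg r m t F x := rfl

end sgl

variable {V : Type} [Fintype V] [DecidableEq V] {q : ℕ}

lemma pim_eq (G : SimpleGraph V) (θ t : ℝ) (S S0 : Finset V) :
    pim G q θ t S S0 = sgl (mrate G q θ) (opR (V := V) (q := q)) t some (ii S S0) := rfl

/-- derivative of the probabilities -/
lemma pim_deriv (G : SimpleGraph V) (θ : ℝ) (Δ : ℕ) (h : SA G q θ Δ) (S S0 : Finset V) (t : ℝ) :
    HasDerivAt (fun t => pim G q θ t S S0) (-(S0.card : ℝ) * pim G q θ t S S0 +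
      ∑ a ∈ S0, ∑ v ∈ S0ᶜ, mrate G q θ (Sum.inr (v, a)) *
        (pim G q θ t S (insert v (S0.erase a)) + pim G q θ t S (insert v S0))) t := by
  have h1 := p_mk.deriv (V → Option V) ((V × Fin q) ⊕ (V × V)) (mrate G q θ)
    (opR (V := V) (q := q)) (ii S S0) some t
  have h2 : gf (mrate G q θ) (opR (V := V) (q := q)) (ii S S0) =
      (-(S0.card : ℝ)) • ii S S0 + ∑ a ∈ S0, ∑ v ∈ S0ᶜ, mrate G q θ (Sum.inr (v, a)) •
        (ii S (insert v (S0.erase a)) + ii S (insert v S0)) := by
    funext σ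
    rw [gf_ii G θ Δ h S S0 σ]
    simp only [Pi.add_apply, Pi.smul_apply, smul_eq_mul, Finset.sum_apply]
  rw [h2, ← sgl_apply, map_add, map_smul, map_sum] at h1
  simp only [map_sum, map_smul, map_add, ← pim_eq, smul_eq_mul] at h1
  exact h1

lemma pim_zero (G : SimpleGraph V) (θ : ℝ) (S S0 : Finset V) :
    pim G q θ 0 S S0 = if S = S0 then 1 else 0 := by
  classical
  have h1 : pim G q θ 0 S S0 = ii S S0 some := by
    rw [pim_eq, sgl_apply, p_mk.zero]
  rw [h1]
  unfold ii
  have h2 : Im S S0 some ↔ S = S0 := by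
    rw [Im_iff]
    constructor
    · rintro ⟨_, h⟩
      rw [← h]
      ext z
      rw [mem_img]
      constructor
      · exact fun hz => ⟨z, hz, rfl⟩
      · rintro ⟨a, ha, haz⟩
        rw [← Option.some.inj haz]
        exact ha
    · intro h
      refine ⟨fun a _ => ⟨a, rfl⟩, ?_⟩
      rw [← h]
      ext z
      rw [mem_img]
      constructor
      · rintro ⟨a, ha, haz⟩
        rw [← Option.some.inj haz]
        exact ha
      · exact fun hz => ⟨z, hz, rfl⟩
  by_cases hS : S = S0
  · rw [if_pos hS, if_pos (h2.2 hS)]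
  · rw [if_neg hS, if_neg (fun h => hS (h2.1 h))]

/-- the majorant -/
noncomputable def bb (G : SimpleGraph V) (θ : ℝ) (f : (V → Fin q) → ℝ) (t : ℝ) (S0 : Finset V)
    (x : V → Fin q) : ℝ :=
  ∑ S : Finset V, 2 ^ S.card / 2 ^ S0.card * (pim G q θ t S S0 * pt G q θ t (osc S f) x)

lemma pt_deriv (G : SimpleGraph V) (θ : ℝ) (f : (V → Fin q) → ℝ) (x : V → Fin q) (t : ℝ) :
    HasDerivAt (fun t => pt G q θ t f x)
      (gf (mrate G q θ) (act (V := V) (q := q)) (pt G q θ t f) x) t := by
  have h := p_mk.deriv (V → Fin q) ((V × Fin q) ⊕ (V × V)) (mrate G q θ)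
    (act (V := V) (q := q)) f x t
  rw [p_mk.comm] at h
  exact h

lemma bb_deriv (G : SimpleGraph V) (θ : ℝ) (Δ : ℕ) (h : SA G q θ Δ) (f : (V → Fin q) → ℝ)
    (S0 : Finset V) (x : V → Fin q) (t : ℝ) :
    HasDerivAt (fun t => bb G θ f t S0 x)
      (∑ e, mrate G q θ e * bb G θ f t S0 (act e x) + ∑ a ∈ S0, ∑ v ∈ S0ᶜ,
        mrate G q θ (Sum.inr (v, a)) * (bb G θ f t (insert v (S0.erase a)) x +
          2 * bb G θ f t (insert v S0) x) -
        ((∑ e, mrate G q θ e) + S0.card) * bb G θ f t S0 x) t := by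
  have h1 : ∀ S : Finset V, HasDerivAt
      (fun t => 2 ^ S.card / 2 ^ S0.card * (pim G q θ t S S0 * pt G q θ t (osc S f) x))
      (2 ^ S.card / 2 ^ S0.card * ((-(S0.card : ℝ) * pim G q θ t S S0 +
        ∑ a ∈ S0, ∑ v ∈ S0ᶜ, mrate G q θ (Sum.inr (v, a)) *
        (pim G q θ t S (insert v (S0.erase a)) + pim G q θ t S (insert v S0))) *
          pt G q θ t (osc S f) x + pim G q θ t S S0 *
          gf (mrate G q θ) (act (V := V) (q := q)) (pt G q θ t (osc S f)) x)) t := by
    intro S
    exact ((pim_deriv G θ Δ h S S0 t).mul (pt_deriv G θ (osc S f) x t)).const_mul _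
  have h2 := HasDerivAt.fun_sum (u := (Finset.univ : Finset (Finset V))) (fun S _ => h1 S)
  refine h2.congr_deriv ?_
  have c1 : ∀ a ∈ S0, ∀ v ∈ S0ᶜ, bb G θ f t (insert v (S0.erase a)) x =
      ∑ S : Finset V, 2 ^ S.card / 2 ^ S0.card *
        (pim G q θ t S (insert v (S0.erase a)) * pt G q θ t (osc S f) x) := by
    intro a ha v hv
    rw [Finset.mem_compl] at hv
    unfold bb
    have hc : (insert v (S0.erase a)).card = S0.card := by
      rw [Finset.card_insert_of_notMem (fun h => hv (Finset.mem_of_mem_erase h)),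
        Finset.card_erase_of_mem ha]
      have := Finset.card_pos.2 ⟨a, ha⟩
      omega
    rw [hc]
  have c2 : ∀ v ∈ S0ᶜ, 2 * bb G θ f t (insert v S0) x =
      ∑ S : Finset V, 2 ^ S.card / 2 ^ S0.card *
        (pim G q θ t S (insert v S0) * pt G q θ t (osc S f) x) := by
    intro v hv
    rw [Finset.mem_compl] at hv
    unfold bb
    rw [Finset.card_insert_of_notMem hv, Finset.mul_sum]
    apply Finset.sum_congr rfl
    intro S _
    rw [pow_succ]
    have : (2 : ℝ) ^ S0.card ≠ 0 := by positivity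
    field_simp
  have e1 : ∑ a ∈ S0, ∑ v ∈ S0ᶜ,
        mrate G q θ (Sum.inr (v, a)) * (bb G θ f t (insert v (S0.erase a)) x +
          2 * bb G θ f t (insert v S0) x) =
      ∑ S : Finset V, 2 ^ S.card / 2 ^ S0.card * ((∑ a ∈ S0, ∑ v ∈ S0ᶜ,
        mrate G q θ (Sum.inr (v, a)) *
        (pim G q θ t S (insert v (S0.erase a)) + pim G q θ t S (insert v S0))) *
          pt G q θ t (osc S f) x) := by
    have e2 : ∀ a ∈ S0, ∀ v ∈ S0ᶜ, mrate G q θ (Sum.inr (v, a)) *
        (bb G θ f t (insert v (S0.erase a)) x + 2 * bb G θ f t (insert v S0) x) =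
        ∑ S : Finset V, 2 ^ S.card / 2 ^ S0.card * ((mrate G q θ (Sum.inr (v, a)) *
        (pim G q θ t S (insert v (S0.erase a)) + pim G q θ t S (insert v S0))) *
          pt G q θ t (osc S f) x) := by
      intro a ha v hv
      rw [c1 a ha v hv, c2 v hv, ← Finset.sum_add_distrib, Finset.mul_sum]
      apply Finset.sum_congr rfl
      intro S _
      ring
    rw [Finset.sum_congr rfl (fun a ha => Finset.sum_congr rfl (fun v hv => e2 a ha v hv))]
    rw [Finset.sum_congr rfl (fun a _ => Finset.sum_comm), Finset.sum_comm]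
    apply Finset.sum_congr rfl
    intro S _
    rw [Finset.sum_mul, Finset.mul_sum]
    apply Finset.sum_congr rfl
    intro a _
    rw [Finset.sum_mul, Finset.mul_sum]
  have e3 : ∑ e, mrate G q θ e * bb G θ f t S0 (act e x) - (∑ e, mrate G q θ e) * bb G θ f t S0 x =
      ∑ S : Finset V, 2 ^ S.card / 2 ^ S0.card * (pim G q θ t S S0 *
        gf (mrate G q θ) (act (V := V) (q := q)) (pt G q θ t (osc S f)) x) := by
    rw [Finset.sum_mul, ← Finset.sum_sub_distrib]
    unfold gf bb
    have e4 : ∀ e : (V × Fin q) ⊕ (V × V), mrate G q θ e * ∑ S : Finset V,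
        2 ^ S.card / 2 ^ S0.card * (pim G q θ t S S0 * pt G q θ t (osc S f) (act e x)) -
        mrate G q θ e * ∑ S : Finset V,
        2 ^ S.card / 2 ^ S0.card * (pim G q θ t S S0 * pt G q θ t (osc S f) x) =
        ∑ S : Finset V, 2 ^ S.card / 2 ^ S0.card * (pim G q θ t S S0 *
          (mrate G q θ e * (pt G q θ t (osc S f) (act e x) - pt G q θ t (osc S f) x))) := by
      intro e
      rw [Finset.mul_sum, Finset.mul_sum, ← Finset.sum_sub_distrib]
      apply Finset.sum_congr rfl
      intro S _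
      ring
    rw [Finset.sum_congr rfl (fun e _ => e4 e), Finset.sum_comm]
    apply Finset.sum_congr rfl
    intro S _
    rw [Finset.mul_sum, Finset.mul_sum]
  have e5 : (S0.card : ℝ) * bb G θ f t S0 x = ∑ S : Finset V, 2 ^ S.card / 2 ^ S0.card *
      ((S0.card : ℝ) * pim G q θ t S S0 * pt G q θ t (osc S f) x) := by
    unfold bb
    rw [Finset.mul_sum]
    apply Finset.sum_congr rfl
    intro S _
    ring
  have e6 : ∑ e, mrate G q θ e * bb G θ f t S0 (act e x) + ∑ a ∈ S0, ∑ v ∈ S0ᶜ,
        mrate G q θ (Sum.inr (v, a)) * (bb G θ f t (insert v (S0.erase a)) x +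
          2 * bb G θ f t (insert v S0) x) -
        ((∑ e, mrate G q θ e) + S0.card) * bb G θ f t S0 x =
      (∑ e, mrate G q θ e * bb G θ f t S0 (act e x) - (∑ e, mrate G q θ e) * bb G θ f t S0 x) +
      (∑ a ∈ S0, ∑ v ∈ S0ᶜ,
        mrate G q θ (Sum.inr (v, a)) * (bb G θ f t (insert v (S0.erase a)) x +
          2 * bb G θ f t (insert v S0) x)) - (S0.card : ℝ) * bb G θ f t S0 x := by ring
  rw [e6, e1, e3, e5, ← Finset.sum_add_distrib, ← Finset.sum_sub_distrib]
  apply Finset.sum_congr rfl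
  intro S _
  ring

lemma bb_zero (G : SimpleGraph V) (θ : ℝ) (f : (V → Fin q) → ℝ) (S0 : Finset V)
    (x : V → Fin q) : bb G θ f 0 S0 x = osc S0 f x := by
  unfold bb
  rw [Finset.sum_eq_single S0]
  · rw [pim_zero, if_pos rfl]
    have : pt G q θ 0 (osc S0 f) = osc S0 f := p_mk.zero _ _ _ _ _
    rw [this, div_self (by positivity), one_mul, one_mul]
  · intro S _ hS
    rw [pim_zero, if_neg hS, zero_mul, mul_zero]
  · intro h
    exact absurd (Finset.mem_univ _) h

/-- derivative of the mixed differences -/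
lemma dl_deriv (G : SimpleGraph V) (θ : ℝ) (f : (V → Fin q) → ℝ) (S : Finset V)
    (c c' : V → Fin q) (x : V → Fin q) (t : ℝ) :
    HasDerivAt (fun t => Dl S c c' (pt G q θ t f) x)
      (Dl S c c' (gf (mrate G q θ) (act (V := V) (q := q)) (pt G q θ t f)) x) t := by
  unfold Dl
  apply HasDerivAt.fun_sum
  intro T _
  exact (pt_deriv G θ f _ t).const_mul _

/-- the index set -/
abbrev JJ (V : Type) (q : ℕ) : Type :=
  Bool × Finset V × (V → Fin q) × (V → Fin q) × (V → Fin q)

/-- the positive operator -/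
noncomputable def AA (G : SimpleGraph V) (q : ℕ) (θ : ℝ) : (JJ V q → ℝ) →ₗ[ℝ] (JJ V q → ℝ) where
  toFun y j := ∑ e, mrate G q θ e * y (j.1, j.2.1, j.2.2.1, j.2.2.2.1, act e j.2.2.2.2) +
    ∑ a ∈ j.2.1, ∑ v ∈ (j.2.1)ᶜ, mrate G q θ (Sum.inr (v, a)) *
      (y (j.1, insert v (j.2.1.erase a), Function.update j.2.2.1 v (j.2.2.1 a),
          Function.update j.2.2.2.1 v (j.2.2.2.1 a), j.2.2.2.2) +
        y (j.1, insert v j.2.1, Function.update j.2.2.1 v (j.2.2.1 a),
          Function.update (Function.update j.2.2.2.1 a (j.2.2.2.2 a)) v (j.2.2.2.2 a),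
          j.2.2.2.2) +
        y (!j.1, insert v j.2.1,
          Function.update (Function.update j.2.2.1 a (j.2.2.2.1 a)) v (j.2.2.2.1 a),
          Function.update (Function.update j.2.2.2.1 a (j.2.2.2.2 a)) v (j.2.2.2.2 a),
          j.2.2.2.2))
  map_add' y z := by
    funext j
    simp only [Pi.add_apply]
    have e1 : ∑ e, mrate G q θ e * (y (j.1, j.2.1, j.2.2.1, j.2.2.2.1, act e j.2.2.2.2) +
        z (j.1, j.2.1, j.2.2.1, j.2.2.2.1, act e j.2.2.2.2)) =
        ∑ e, mrate G q θ e * y (j.1, j.2.1, j.2.2.1, j.2.2.2.1, act e j.2.2.2.2) +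
        ∑ e, mrate G q θ e * z (j.1, j.2.1, j.2.2.1, j.2.2.2.1, act e j.2.2.2.2) := by
      rw [← Finset.sum_add_distrib]
      exact Finset.sum_congr rfl fun e _ => by ring
    rw [e1]
    rw [add_add_add_comm]
    congr 1
    rw [← Finset.sum_add_distrib]
    refine Finset.sum_congr rfl fun a _ => ?_
    rw [← Finset.sum_add_distrib]
    refine Finset.sum_congr rfl fun v _ => ?_
    ring
  map_smul' r y := by
    funext j
    simp only [Pi.smul_apply, smul_eq_mul, RingHom.id_apply]
    rw [mul_add, Finset.mul_sum, Finset.mul_sum]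
    congr 1
    · exact Finset.sum_congr rfl fun e _ => by ring
    · refine Finset.sum_congr rfl fun a _ => ?_
      rw [Finset.mul_sum]
      refine Finset.sum_congr rfl fun v _ => ?_
      ring

theorem maj (h0 : S_C0) (h1 : S_C1) : S_MAJ := by
  intro V _ _ G q θ Δ hA S0 c c' f x s hs
  obtain ⟨hr, _⟩ := p_tot V G q θ (by have := hA.q2; omega) hA.t0.le hA.t1 hA.d1
  let y : ℝ → JJ V q → ℝ := fun t j => bb G θ f t j.2.1 j.2.2.2.2 +
    (if j.1 then (1 : ℝ) else -1) * Dl j.2.1 j.2.2.1 j.2.2.2.1 (pt G q θ t f) j.2.2.2.2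
  have hy : ∀ t j, HasDerivAt (fun t => y t j) (AA G q θ (y t) j -
      ((∑ e, mrate G q θ e) + (j.2.1.card : ℝ)) * y t j) t := by
    rintro t ⟨β, S, c, c', x⟩
    have d1 := bb_deriv G θ Δ hA f S x t
    have d2 := (dl_deriv G θ f S c c' x t).const_mul (if β then (1 : ℝ) else -1)
    refine (d1.add d2).congr_deriv ?_
    rw [h1 V G q θ Δ hA S c c' (pt G q θ t f) x]
    show _ = (∑ e, mrate G q θ e * (bb G θ f t S (act e x) + (if β then (1 : ℝ) else -1) *
        Dl S c c' (pt G q θ t f) (act e x)) +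
      ∑ a ∈ S, ∑ v ∈ Sᶜ, mrate G q θ (Sum.inr (v, a)) *
      ((bb G θ f t (insert v (S.erase a)) x + (if β then (1 : ℝ) else -1) *
        Dl (insert v (S.erase a)) (Function.update c v (c a)) (Function.update c' v (c' a))
          (pt G q θ t f) x) +
        (bb G θ f t (insert v S) x + (if β then (1 : ℝ) else -1) *
        Dl (insert v S) (Function.update c v (c a))
          (Function.update (Function.update c' a (x a)) v (x a)) (pt G q θ t f) x) +
        (bb G θ f t (insert v S) x + (if !β then (1 : ℝ) else -1) *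
        Dl (insert v S) (Function.update (Function.update c a (c' a)) v (c' a))
          (Function.update (Function.update c' a (x a)) v (x a)) (pt G q θ t f) x))) -
      ((∑ e, mrate G q θ e) + (S.card : ℝ)) * (bb G θ f t S x + (if β then (1 : ℝ) else -1) *
        Dl S c c' (pt G q θ t f) x)
    have hβ : (if !β then (1 : ℝ) else -1) = -(if β then (1 : ℝ) else -1) := by
      cases β <;> simp
    rw [hβ]
    generalize (if β then (1 : ℝ) else -1) = κ
    unfold gf
    have s1 : ∑ e, mrate G q θ e * (bb G θ f t S (act e x) + κ *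
        Dl S c c' (pt G q θ t f) (act e x)) =
        ∑ e, mrate G q θ e * bb G θ f t S (act e x) + κ *
          ∑ e, mrate G q θ e * (Dl S c c' (pt G q θ t f) (act e x) -
            Dl S c c' (pt G q θ t f) x) +
          κ * (∑ e, mrate G q θ e) * Dl S c c' (pt G q θ t f) x := by
      rw [Finset.mul_sum, Finset.mul_sum, Finset.sum_mul, ← Finset.sum_add_distrib,
        ← Finset.sum_add_distrib]
      exact Finset.sum_congr rfl fun e _ => by ring
    rw [s1]
    have s2 : ∀ (X Y : V → V → ℝ) , (∀ a v, mrate G q θ (Sum.inr (v, a)) * Y a v =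
        mrate G q θ (Sum.inr (v, a)) * X a v) →
        ∑ a ∈ S, ∑ v ∈ Sᶜ, mrate G q θ (Sum.inr (v, a)) * Y a v =
        ∑ a ∈ S, ∑ v ∈ Sᶜ, mrate G q θ (Sum.inr (v, a)) * X a v :=
      fun X Y hXY => Finset.sum_congr rfl fun a _ => Finset.sum_congr rfl fun v _ => hXY a v
    have s3 : ∑ a ∈ S, ∑ v ∈ Sᶜ, mrate G q θ (Sum.inr (v, a)) *
      ((bb G θ f t (insert v (S.erase a)) x + κ *
        Dl (insert v (S.erase a)) (Function.update c v (c a)) (Function.update c' v (c' a))
          (pt G q θ t f) x) +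
        (bb G θ f t (insert v S) x + κ *
        Dl (insert v S) (Function.update c v (c a))
          (Function.update (Function.update c' a (x a)) v (x a)) (pt G q θ t f) x) +
        (bb G θ f t (insert v S) x + -κ *
        Dl (insert v S) (Function.update (Function.update c a (c' a)) v (c' a))
          (Function.update (Function.update c' a (x a)) v (x a)) (pt G q θ t f) x)) =
      ∑ a ∈ S, ∑ v ∈ Sᶜ, mrate G q θ (Sum.inr (v, a)) * (bb G θ f t (insert v (S.erase a)) x +
          2 * bb G θ f t (insert v S) x) +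
      κ * ∑ a ∈ S, ∑ v ∈ Sᶜ, mrate G q θ (Sum.inr (v, a)) *
        (Dl (insert v (S.erase a)) (Function.update c v (c a)) (Function.update c' v (c' a))
          (pt G q θ t f) x +
          Dl (insert v S) (Function.update c v (c a))
            (Function.update (Function.update c' a (x a)) v (x a)) (pt G q θ t f) x -
          Dl (insert v S) (Function.update (Function.update c a (c' a)) v (c' a))
            (Function.update (Function.update c' a (x a)) v (x a)) (pt G q θ t f) x) := by
      rw [Finset.mul_sum, ← Finset.sum_add_distrib]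
      refine Finset.sum_congr rfl fun a _ => ?_
      rw [Finset.mul_sum, ← Finset.sum_add_distrib]
      refine Finset.sum_congr rfl fun v _ => ?_
      ring
    rw [s3]
    ring
  have hpos := pos_ode (AA G q θ) (by
    intro y hy j
    simp only [AA, LinearMap.coe_mk, AddHom.coe_mk]
    apply add_nonneg
    · exact Finset.sum_nonneg fun e _ => mul_nonneg (hr e) (hy _)
    · refine Finset.sum_nonneg fun a _ => Finset.sum_nonneg fun v _ => mul_nonneg (hr _) ?_
      exact add_nonneg (add_nonneg (hy _) (hy _)) (hy _))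
    (fun j => (∑ e, mrate G q θ e) + (j.2.1.card : ℝ)) y hy (by
      rintro ⟨β, S, c, c', x⟩
      show 0 ≤ bb G θ f 0 S x + (if β then (1 : ℝ) else -1) * Dl S c c' (pt G q θ 0 f) x
      have e1 : pt G q θ 0 f = f := p_mk.zero _ _ _ _ _
      rw [bb_zero, e1]
      have e2 := (h0 V q S c c' f x).2.2.2.2.1
      have e3 := abs_le.1 e2
      cases β
      · simp only [Bool.false_eq_true, if_false]; linarith [e3.2]
      · simp only [if_true]; linarith [e3.1]) s hs
  have k1 := hpos (true, S0, c, c', x)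
  have k2 := hpos (false, S0, c, c', x)
  have k1' : 0 ≤ bb G θ f s S0 x + 1 * Dl S0 c c' (pt G q θ s f) x := by simpa [y] using k1
  have k2' : 0 ≤ bb G θ f s S0 x + -1 * Dl S0 c c' (pt G q θ s f) x := by simpa [y] using k2
  have k3 : |Dl S0 c c' (pt G q θ s f) x| ≤ bb G θ f s S0 x := abs_le.2 ⟨by linarith, by linarith⟩
  calc 2 ^ S0.card * |Dl S0 c c' (pt G q θ s f) x| ≤ 2 ^ S0.card * bb G θ f s S0 x :=
        mul_le_mul_of_nonneg_left k3 (by positivity)
    _ = _ := by
        unfold bb
        rw [Finset.mul_sum]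
        refine Finset.sum_congr rfl fun S _ => ?_
        have : (2 : ℝ) ^ S0.card ≠ 0 := by positivity
        field_simp

end Pool.Agent.Y290.U
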