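import Mathlib

/-!
Positivity for linear systems of differential equations with nonnegative coefficients.
-/

set_option autoImplicit false

namespace Pool.Agent.Y290.U

open Finset

variable {J : Type} [Fintype J]

/-- iterates of a positive operator -/
lemma pos_pow (P : (J → ℝ) →L[ℝ] (J → ℝ)) (hP : ∀ y : J → ℝ, (∀ i, 0 ≤ y i) → ∀ i, 0 ≤ P y i)
    (n : ℕ) : ∀ y : J → ℝ, (∀ i, 0 ≤ y i) → ∀ i, 0 ≤ (P ^ n) y i := by
  induction n with
  | zero => intro y hy i; simpa using hy i
  | succ n ih =>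
    intro y hy i
    rw [pow_succ]
    exact ih (P y) (hP y hy) i

lemma pos_exp (P : (J → ℝ) →L[ℝ] (J → ℝ)) (hP : ∀ y : J → ℝ, (∀ i, 0 ≤ y i) → ∀ i, 0 ≤ P y i)
    (t : ℝ) (ht : 0 ≤ t) (y : J → ℝ) (hy : ∀ i, 0 ≤ y i) (i : J) :
    0 ≤ (NormedSpace.exp (t • P)) y i := by
  have h1 : HasSum (fun n : ℕ => ((n.factorial : ℝ)⁻¹) • (t • P) ^ n)
      (NormedSpace.exp (t • P)) := NormedSpace.exp_series_hasSum_exp' (𝕂 := ℝ) (t • P)
  have h2 := h1.mapL (ContinuousLinearMap.apply ℝ (J → ℝ) y)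
  have h3 := h2.mapL (ContinuousLinearMap.proj (R := ℝ) (φ := fun _ : J => ℝ) i)
  refine h3.nonneg fun n => ?_
  have h4 : 0 ≤ ((t • P) ^ n) y i := by
    apply pos_pow (t • P) _ n y hy i
    intro y hy i
    exact mul_nonneg ht (hP y hy i)
  show 0 ≤ ((n.factorial : ℝ)⁻¹) * ((t • P) ^ n) y i
  exact mul_nonneg (by positivity) h4

lemma lin_sol (P : (J → ℝ) →L[ℝ] (J → ℝ)) (w : ℝ → J → ℝ)
    (hw : ∀ t, HasDerivAt w (P (w t)) t) (t : ℝ) :
    w t = (NormedSpace.exp (t • P)) (w 0) := by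
  have h1 : ∀ s, HasDerivAt (fun s => NormedSpace.exp ((t - s) • P))
      (-(NormedSpace.exp ((t - s) • P) * P)) s := by
    intro s
    have h := hasDerivAt_exp_smul_const (𝕂 := ℝ) P (t - s)
    have h2 : HasDerivAt (fun s : ℝ => t - s) (-1) s := by
      simpa using (hasDerivAt_id s).const_sub t
    have h3 := h.scomp s h2
    rw [neg_smul, one_smul] at h3
    exact h3
  have h2 : ∀ s, HasDerivAt (fun s => (NormedSpace.exp ((t - s) • P)) (w s)) 0 s := by
    intro s
    have h := (h1 s).clm_apply (hw s)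
    have e : (-(NormedSpace.exp ((t - s) • P) * P)) (w s) +
        (NormedSpace.exp ((t - s) • P)) (P (w s)) = 0 := by
      rw [ContinuousLinearMap.neg_apply, ContinuousLinearMap.mul_apply]
      exact neg_add_cancel _
    rw [e] at h
    exact h
  have h3 := is_const_of_deriv_eq_zero (f := fun s => (NormedSpace.exp ((t - s) • P)) (w s))
    (fun s => (h2 s).differentiableAt) (fun s => (h2 s).deriv) t 0
  simp only [sub_self, zero_smul, NormedSpace.exp_zero, sub_zero] at h3
  exact h3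

/-- positivity -/
theorem pos_ode (A : (J → ℝ) →ₗ[ℝ] (J → ℝ)) (hA : ∀ y : J → ℝ, (∀ i, 0 ≤ y i) → ∀ i, 0 ≤ A y i)
    (C : J → ℝ) (y : ℝ → J → ℝ)
    (hy : ∀ t j, HasDerivAt (fun t => y t j) (A (y t) j - C j * y t j) t)
    (h0 : ∀ j, 0 ≤ y 0 j) (t : ℝ) (ht : 0 ≤ t) (j : J) : 0 ≤ y t j := by
  set K : ℝ := ∑ i, |C i| with hK
  have hCK : ∀ i, C i ≤ K := fun i =>
    (le_abs_self _).trans (Finset.single_le_sum (f := fun i => |C i|)
      (fun _ _ => abs_nonneg _) (Finset.mem_univ i))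
  let P0 : (J → ℝ) →ₗ[ℝ] (J → ℝ) :=
    { toFun := fun y i => A y i + (K - C i) * y i
      map_add' := by
        intro y z
        funext i
        simp only [map_add, Pi.add_apply]
        ring
      map_smul' := by
        intro c y
        funext i
        simp only [map_smul, Pi.smul_apply, smul_eq_mul, RingHom.id_apply]
        ring }
  let P : (J → ℝ) →L[ℝ] (J → ℝ) := LinearMap.toContinuousLinearMap P0
  have hPa : ∀ y i, P y i = A y i + (K - C i) * y i := fun y i => rfl
  have hP : ∀ y : J → ℝ, (∀ i, 0 ≤ y i) → ∀ i, 0 ≤ P y i := by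
    intro y hy i
    rw [hPa]
    exact add_nonneg (hA y hy i) (mul_nonneg (by linarith [hCK i]) (hy i))
  set w : ℝ → J → ℝ := fun t => Real.exp (K * t) • y t with hw
  have hwd : ∀ t, HasDerivAt w (P (w t)) t := by
    intro t
    rw [hasDerivAt_pi]
    intro i
    have h1 : HasDerivAt (fun t : ℝ => Real.exp (K * t)) (Real.exp (K * t) * K) t := by
      have h2 : HasDerivAt (fun t : ℝ => K * t) K t := by
        simpa using (hasDerivAt_id t).const_mul K
      exact h2.exp
    have h2 := h1.mul (hy t i)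
    have h3 : P (w t) i = Real.exp (K * t) * K * y t i +
        Real.exp (K * t) * (A (y t) i - C i * y t i) := by
      rw [hPa]
      simp only [hw, map_smul, Pi.smul_apply, smul_eq_mul]
      ring
    rw [h3]
    exact h2
  have h1 := lin_sol P w hwd t
  have h2 : 0 ≤ w t j := by
    rw [h1]
    apply pos_exp P hP t ht
    intro i
    simp only [hw, mul_zero, Real.exp_zero, one_smul]
    exact h0 i
  have h3 : w t j = Real.exp (K * t) * y t j := rfl
  rw [h3] at h2
  exact nonneg_of_mul_nonneg_right h2 (Real.exp_pos _)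

end Pool.Agent.Y290.U
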